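import Mathlib
import Pool.Agent.H442R2.EHI.PntErr

set_option autoImplicit false

open Finset

namespace Pool.Agent.Results.MP_4011c3_nt.NearlyAllPairs

/-- the pair `(m, n)` is admissible -/
def Admissible (m n : ℕ) : Prop :=
  1 ≤ m ∧ 2 * m + 1 < n ∧ ((m = 1 ∧ Even n) ∨ (m = 3 ∧ n % 6 ≠ 1) ∨ m = 2 ∨ 4 ≤ m)

/-- one and the same prime `p < n` works for Q1 and for Q2 -/
def Good (m n : ℕ) : Prop :=
  ∃ p : ℕ, p.Prime ∧ p < n ∧ ((n - p) / m).Prime ∧
    (Nat.nth Nat.Prime ((n - p) / m - 1) - (n - p) / m + 1).Prime ∧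
    (((n - p) / m) ^ 2 - 2).Prime

/-- a prime in `(n - 4m, n - 2m]` is enough -/
lemma good_of_prime (m n p : ℕ) (hm : 1 ≤ m) (hp : p.Prime) (h1 : n < p + 4 * m)
    (h2 : p + 2 * m ≤ n) : Good m n := by
  have h3 : (n - p) / m < 4 := by
    rw [Nat.div_lt_iff_lt_mul hm]; omega
  have h4 : 2 ≤ (n - p) / m := by
    rw [Nat.le_div_iff_mul_le hm]; omega
  refine ⟨p, hp, by omega, ?_⟩
  have h5 : (n - p) / m = 2 ∨ (n - p) / m = 3 := by omega
  rcases h5 with h5 | h5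
  · rw [h5]
    refine ⟨Nat.prime_two, ?_, by norm_num⟩
    rw [show 2 - 1 = 1 from rfl, Nat.nth_prime_one_eq_three]
    norm_num
  · rw [h5]
    refine ⟨Nat.prime_three, ?_, by norm_num⟩
    rw [show 3 - 1 = 2 from rfl, Nat.nth_prime_two_eq_five]
    norm_num

/-- Bertrand range -/
lemma good_bertrand (m n : ℕ) (hm : 1 ≤ m) (h1 : 2 * m + 1 < n) (h2 : n ≤ 6 * m) : Good m n := by
  obtain ⟨p, hp, h3, h4⟩ := Nat.exists_prime_lt_and_le_two_mul ((n - 2 * m) / 2) (by omega)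
  exact good_of_prime m n p hm hp (by omega) (by omega)

lemma lis_sub (y1 y2 n : ℕ) (h1 : 1 ≤ y1) (h12 : y1 ≤ y2) (h2 : y2 ≤ n) :
    ((y2 - y1 : ℕ) : ℝ) / Real.log n ≤
      Pool.Agent.H442R2.EHI.lis y2 - Pool.Agent.H442R2.EHI.lis y1 := by
  unfold Pool.Agent.H442R2.EHI.lis
  have hsub : Icc 2 y1 ⊆ Icc 2 y2 := Icc_subset_Icc le_rfl h12
  rw [← sum_sdiff hsub, add_sub_cancel_right]
  have hcard : y2 - y1 ≤ (Icc 2 y2 \ Icc 2 y1).card := by
    rw [card_sdiff_of_subset hsub, Nat.card_Icc, Nat.card_Icc]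
    omega
  calc ((y2 - y1 : ℕ) : ℝ) / Real.log n
      ≤ ((Icc 2 y2 \ Icc 2 y1).card : ℝ) * (1 / Real.log n) := by
        rw [div_eq_mul_one_div]
        apply mul_le_mul_of_nonneg_right
        · exact_mod_cast hcard
        · apply div_nonneg zero_le_one
          exact Real.log_natCast_nonneg n
    _ = ∑ _k ∈ Icc 2 y2 \ Icc 2 y1, 1 / Real.log n := by rw [sum_const, nsmul_eq_mul]
    _ ≤ ∑ k ∈ Icc 2 y2 \ Icc 2 y1, 1 / Real.log k := by
        apply sum_le_sum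
        intro k hk
        rw [mem_sdiff, mem_Icc] at hk
        apply one_div_le_one_div_of_le
        · apply Real.log_pos
          exact_mod_cast (by omega : 1 < k)
        · apply Real.log_le_log
          · exact_mod_cast (by omega : 0 < k)
          · exact_mod_cast (by omega : k ≤ n)

lemma growth (K : ℝ) : ∃ n₀ : ℕ, 9 ≤ n₀ ∧ ∀ n : ℕ, n₀ ≤ n → K < Real.log n := by
  have t : Filter.Tendsto (fun N : ℕ => Real.log (N : ℝ)) Filter.atTop Filter.atTop :=
    Real.tendsto_log_atTop.comp tendsto_natCast_atTop_atTop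
  obtain ⟨n₀, h⟩ := (t.eventually_gt_atTop K).exists_forall_of_atTop
  exact ⟨max 9 n₀, le_max_left _ _, fun n hn => h n ((le_max_right _ _).trans hn)⟩

/-- all `m ≥ n / log^A n` -/
lemma good_pnt (A : ℕ) : ∃ n₀ : ℕ, ∀ n : ℕ, n₀ ≤ n → ∀ m : ℕ, 1 ≤ m → 2 * m + 1 < n →
    (n : ℝ) ≤ m * Real.log n ^ A → Good m n := by
  obtain ⟨C, hC⟩ := Pool.Agent.H442R2.EHI.pnt_err (A + 2)
  obtain ⟨n₀, hn9, hn₀⟩ := growth (|C| * 2 ^ (A + 2) + 1)
  refine ⟨n₀, fun n hn m hm h1 h2 => ?_⟩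
  rcases Nat.lt_or_ge (6 * m) n with h6 | h6
  swap
  · exact good_bertrand m n hm h1 h6
  by_contra hbad
  set y1 := n - 4 * m with hy1
  set y2 := n - 2 * m with hy2
  have hy12 : y1 ≤ y2 := by omega
  have hcard : (Icc 1 y1).filter (fun p : ℕ => p.Prime) = (Icc 1 y2).filter (fun p : ℕ => p.Prime) := by
    apply Subset.antisymm
    · exact filter_subset_filter _ (Icc_subset_Icc le_rfl hy12)
    · intro p hp
      rw [mem_filter, mem_Icc] at hp ⊢
      refine ⟨⟨hp.1.1, ?_⟩, hp.2⟩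
      by_contra hcon
      exact hbad (good_of_prime m n p hm hp.2 (by omega) (by omega))
  have e1 := hC y1 (by omega)
  have e2 := hC y2 (by omega)
  rw [hcard] at e1
  have hlis := lis_sub y1 y2 n (by omega) hy12 (by omega)
  have hn1 : (1 : ℝ) < n := by exact_mod_cast (by omega : 1 < n)
  have hlog : 0 < Real.log n := Real.log_pos hn1
  -- y ≥ n/3 has log y ≥ (log n)/2
  have hlogy : ∀ y : ℕ, n ≤ 3 * y → Real.log n / 2 ≤ Real.log y := by
    intro y hy
    have hy0 : (0 : ℝ) < y := by exact_mod_cast (by omega : 0 < y)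
    have h9 : (n : ℝ) ≤ (y : ℝ) ^ 2 := by
      have h3 : 3 ≤ y := by omega
      have : n ≤ y ^ 2 := by nlinarith
      exact_mod_cast this
    have := Real.log_le_log (by linarith) h9
    rw [Real.log_pow] at this
    push_cast at this
    linarith
  have herr : ∀ y : ℕ, n ≤ 3 * y → y ≤ n →
      C * y / Real.log y ^ (A + 2) ≤ |C| * 2 ^ (A + 2) * n / Real.log n ^ (A + 2) := by
    intro y hy hyn
    have hl := hlogy y hy
    have hy0 : (0 : ℝ) ≤ y := Nat.cast_nonneg y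
    have hyn' : (y : ℝ) ≤ n := by exact_mod_cast hyn
    have h3 : (Real.log n / 2) ^ (A + 2) ≤ Real.log y ^ (A + 2) :=
      pow_le_pow_left₀ (by positivity) hl _
    calc C * y / Real.log y ^ (A + 2) ≤ |C| * n / Real.log y ^ (A + 2) := by
          apply div_le_div_of_nonneg_right _ (le_trans (by positivity) h3)
          calc C * y ≤ |C| * y := mul_le_mul_of_nonneg_right (le_abs_self C) hy0
            _ ≤ |C| * n := mul_le_mul_of_nonneg_left hyn' (abs_nonneg C)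
      _ ≤ |C| * n / (Real.log n / 2) ^ (A + 2) := by
          apply div_le_div_of_nonneg_left (by positivity) (by positivity) h3
      _ = |C| * 2 ^ (A + 2) * n / Real.log n ^ (A + 2) := by
          rw [div_pow]; field_simp
  have b1 := herr y1 (by omega) (by omega)
  have b2 := herr y2 (by omega) (by omega)
  have e1' := abs_le.mp e1
  have e2' := abs_le.mp e2
  have hdiff : y2 - y1 = 2 * m := by omega
  rw [hdiff] at hlis
  push_cast at hlis
  have key : 2 * (m : ℝ) / Real.log n ≤ 2 * (|C| * 2 ^ (A + 2) * n / Real.log n ^ (A + 2)) := by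
    linarith [e1'.1, e1'.2, e2'.1, e2'.2]
  have hK := hn₀ n hn
  -- m ≤ |C| 2^(A+2) n / log^(A+1)
  have hpow : Real.log n ^ (A + 2) = Real.log n ^ A * Real.log n * Real.log n := by ring
  have key2 : (m : ℝ) * (Real.log n ^ A * Real.log n) ≤ |C| * 2 ^ (A + 2) * n := by
    have h5 : 0 < Real.log n ^ (A + 2) := by positivity
    have h6 := mul_le_mul_of_nonneg_right key h5.le
    have h7 : 2 * (m : ℝ) / Real.log n * Real.log n ^ (A + 2) =
        2 * (m * (Real.log n ^ A * Real.log n)) := by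
      rw [hpow]; field_simp
    have h8 : 2 * (|C| * 2 ^ (A + 2) * n / Real.log n ^ (A + 2)) * Real.log n ^ (A + 2) =
        2 * (|C| * 2 ^ (A + 2) * n) := by
      field_simp
    rw [h7, h8] at h6
    linarith
  have key3 : (n : ℝ) * Real.log n ≤ |C| * 2 ^ (A + 2) * n := by
    calc (n : ℝ) * Real.log n ≤ (m * Real.log n ^ A) * Real.log n :=
          mul_le_mul_of_nonneg_right h2 hlog.le
      _ = m * (Real.log n ^ A * Real.log n) := by ring
      _ ≤ _ := key2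
  have hn0 : (0 : ℝ) < n := by linarith
  nlinarith [mul_lt_mul_of_pos_left hK hn0]

open Classical in
/-- For every `A`, one and the same prime `p < n` works for Q1 and Q2 for every pair `(m, n)`, `n > 2m + 1`, with
`n ≤ 6 m` or with `n ≥ n₀(A)` and `n ≤ m log^A n`; in particular all but `O_A (X ^ 2 / log^A X)` admissible pairs
with `n ≤ X` satisfy both assertions. -/
theorem result :
    ∀ A : ℕ, ∃ n₀ : ℕ,
      (∀ m n : ℕ, 1 ≤ m → 2 * m + 1 < n →
        (n ≤ 6 * m ∨ (n₀ ≤ n ∧ (n : ℝ) ≤ m * Real.log n ^ A)) → Good m n) ∧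
      ∃ C : ℝ, ∀ X : ℕ, 2 ≤ X →
        (((Icc 1 X ×ˢ Icc 1 X).filter
          (fun z : ℕ × ℕ => Admissible z.1 z.2 ∧ ¬ Good z.1 z.2)).card : ℝ) ≤
          C * (X : ℝ) ^ 2 / Real.log X ^ A := by
  intro A
  obtain ⟨n₀, hn₀⟩ := good_pnt A
  refine ⟨n₀, ?_, ?_⟩
  · rintro m n hm h1 (h2 | ⟨h2, h3⟩)
    · exact good_bertrand m n hm h1 h2
    · exact hn₀ n h2 m hm h1 h3
  -- log X ^ A ≤ K X
  obtain ⟨K, hK0, hK⟩ : ∃ K : ℝ, 0 < K ∧ ∀ X : ℕ, 2 ≤ X → Real.log X ^ A ≤ K * X := by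
    have h1 := isLittleO_log_rpow_rpow_atTop (A : ℝ) (show (0 : ℝ) < 1 by norm_num)
    have h2 := h1.bound (c := 1) one_pos
    have h3 := (tendsto_natCast_atTop_atTop (R := ℝ)).eventually h2
    obtain ⟨N, hN⟩ := h3.exists_forall_of_atTop
    refine ⟨1 + ∑ X ∈ range N, |Real.log X ^ A|, by positivity, fun X hX => ?_⟩
    have hX1 : (1 : ℝ) ≤ X := by exact_mod_cast (by omega : 1 ≤ X)
    have hs0 : 0 ≤ ∑ X ∈ range N, |Real.log (X : ℕ) ^ A| :=
      sum_nonneg fun i _ => abs_nonneg _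
    rcases Nat.lt_or_ge X N with h | h
    · have h4 : |Real.log X ^ A| ≤ ∑ X ∈ range N, |Real.log (X : ℕ) ^ A| :=
        single_le_sum (f := fun X : ℕ => |Real.log X ^ A|) (fun i _ => abs_nonneg _)
          (mem_range.mpr h)
      have h5 := le_abs_self (Real.log X ^ A)
      nlinarith
    · have h4 := hN X h
      rw [Real.rpow_natCast, Real.rpow_one, one_mul, Real.norm_of_nonneg
        (pow_nonneg (Real.log_natCast_nonneg X) _), Real.norm_of_nonneg (by positivity)] at h4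
      nlinarith
  refine ⟨(n₀ : ℝ) ^ 2 * K + K + 2 ^ A, fun X hX => ?_⟩
  have hX1 : (1 : ℝ) < X := by exact_mod_cast (by omega : 1 < X)
  have hX0 : (0 : ℝ) < X := by linarith
  have hlX : 0 < Real.log X := Real.log_pos hX1
  have hL : 0 < Real.log X ^ A := by positivity
  set M : ℕ := ⌊(X : ℝ) * 2 ^ A / Real.log X ^ A⌋₊ with hM
  set T := (Icc 1 X ×ˢ Icc 1 X).filter
    (fun z : ℕ × ℕ => Admissible z.1 z.2 ∧ ¬ Good z.1 z.2) with hT
  have hsub : T ⊆ (range n₀ ×ˢ range n₀) ∪ ((Icc 1 (Nat.sqrt X) ×ˢ Icc 1 (Nat.sqrt X)) ∪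
      (Icc 1 M ×ˢ Icc 1 X)) := by
    rintro ⟨m, n⟩ hz
    rw [hT, mem_filter, mem_product, mem_Icc, mem_Icc] at hz
    obtain ⟨⟨⟨hm1, hm2⟩, ⟨hn1, hn2⟩⟩, ⟨hm3, hmn, _⟩, hbad⟩ := hz
    simp only [mem_union, mem_product, mem_range, mem_Icc]
    by_cases c1 : n < n₀
    · left; constructor <;> omega
    right
    by_cases c2 : n ≤ Nat.sqrt X
    · left
      refine ⟨⟨hm1, by omega⟩, hn1, c2⟩
    right
    refine ⟨⟨hm1, ?_⟩, hn1, hn2⟩
    have c3 : Nat.sqrt X < n := by omega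
    have c4 : X < n ^ 2 := Nat.sqrt_lt'.mp c3
    have h1 : ¬ ((n : ℝ) ≤ m * Real.log n ^ A) := fun h => hbad (hn₀ n (by omega) m hm3 hmn h)
    push Not at h1
    have hn0 : (0 : ℝ) < n := by exact_mod_cast (by omega : 0 < n)
    have h2 : Real.log X / 2 ≤ Real.log n := by
      have h9 : (X : ℝ) ≤ (n : ℝ) ^ 2 := by exact_mod_cast c4.le
      have := Real.log_le_log hX0 h9
      rw [Real.log_pow] at this
      push_cast at this
      linarith
    have h3 : (Real.log X / 2) ^ A ≤ Real.log n ^ A := pow_le_pow_left₀ (by positivity) h2 _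
    have h4 : (m : ℝ) * (Real.log X / 2) ^ A ≤ X := by
      have hnX : (n : ℝ) ≤ X := by exact_mod_cast hn2
      calc (m : ℝ) * (Real.log X / 2) ^ A ≤ m * Real.log n ^ A :=
            mul_le_mul_of_nonneg_left h3 (Nat.cast_nonneg m)
        _ ≤ n := h1.le
        _ ≤ X := hnX
    rw [hM]
    apply Nat.le_floor
    rw [le_div_iff₀ hL]
    have h5 : (m : ℝ) * (Real.log X / 2) ^ A * 2 ^ A ≤ X * 2 ^ A :=
      mul_le_mul_of_nonneg_right h4 (by positivity)
    calc (m : ℝ) * Real.log X ^ A = m * (Real.log X / 2) ^ A * 2 ^ A := by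
          rw [div_pow]; field_simp
      _ ≤ X * 2 ^ A := h5
  have hc := (card_le_card hsub).trans ((card_union_le _ _).trans
    (Nat.add_le_add_left (card_union_le _ _) _))
  simp only [card_product, card_range, Nat.card_Icc, Nat.add_sub_cancel] at hc
  have hcR : (T.card : ℝ) ≤ n₀ * n₀ + ((Nat.sqrt X : ℕ) * (Nat.sqrt X : ℕ) + M * X) := by
    exact_mod_cast hc
  have hs : ((Nat.sqrt X : ℕ) : ℝ) * (Nat.sqrt X : ℕ) ≤ X := by
    exact_mod_cast Nat.sqrt_le X
  have hMle : (M : ℝ) ≤ (X : ℝ) * 2 ^ A / Real.log X ^ A := Nat.floor_le (by positivity)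
  have hKX := hK X hX
  have hone : 1 ≤ K * X / Real.log X ^ A := by
    rw [le_div_iff₀ hL, one_mul]; exact hKX
  have hn0 : (0 : ℝ) ≤ (n₀ : ℝ) ^ 2 := by positivity
  have hXX : (1 : ℝ) ≤ X := hX1.le
  have t1 : (n₀ : ℝ) * n₀ ≤ (n₀ : ℝ) ^ 2 * (K * X / Real.log X ^ A) * X := by
    have : (n₀ : ℝ) ^ 2 * 1 * 1 ≤ (n₀ : ℝ) ^ 2 * (K * X / Real.log X ^ A) * X := by
      apply mul_le_mul _ hXX zero_le_one (by positivity)
      exact mul_le_mul_of_nonneg_left hone hn0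
    linarith
  have t2 : (X : ℝ) ≤ (K * X / Real.log X ^ A) * X := by
    have := mul_le_mul_of_nonneg_right hone hX0.le
    linarith
  have t3 : (M : ℝ) * X ≤ (X : ℝ) * 2 ^ A / Real.log X ^ A * X :=
    mul_le_mul_of_nonneg_right hMle hX0.le
  calc (T.card : ℝ) ≤ (n₀ : ℝ) ^ 2 * (K * X / Real.log X ^ A) * X +
        ((K * X / Real.log X ^ A) * X + (X : ℝ) * 2 ^ A / Real.log X ^ A * X) := by
        linarith
    _ = ((n₀ : ℝ) ^ 2 * K + K + 2 ^ A) * (X : ℝ) ^ 2 / Real.log X ^ A := by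
        ring

end Pool.Agent.Results.MP_4011c3_nt.NearlyAllPairs
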